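import Mathlib

namespace Pool.Agent.Results.MP_d2a7e5_an.Counter

open Set Filter Topology

/-- The digamma function `Γ'/Γ`. -/
noncomputable def psi (x : ℝ) : ℝ := deriv Real.Gamma x / Real.Gamma x

/-- The function `𝓛(x,a)`. -/
noncomputable def L (x a : ℝ) : ℝ :=
  1 / (90 * a ^ 2 + 2) * Real.log (x ^ 2 + x + (3 * a + 1) / 3) +
    45 * a ^ 2 / (90 * a ^ 2 + 2) * Real.log (x ^ 2 + x + (15 * a - 1) / (45 * a))

/-- The constant `a₁`. -/
noncomputable def a1 : ℝ := (40 + 3 * √205) / 105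

/-- `G(x) = 𝓛(x,a₁) - ψ(x+1)`. -/
noncomputable def G (x : ℝ) : ℝ := L x a1 - psi (x + 1)

lemma gam_an {x : ℝ} (hx : 0 < x) : AnalyticAt ℝ Real.Gamma x := by
  have ho : IsOpen {z : ℂ | 0 < z.re} := isOpen_lt continuous_const Complex.continuous_re
  have hd : DifferentiableOn ℂ Complex.Gamma {z : ℂ | 0 < z.re} := by
    intro z hz
    refine (Complex.differentiableAt_Gamma z fun m hm => ?_).differentiableWithinAt
    have : (0 : ℝ) < z.re := hz
    rw [hm] at this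
    simp at this
    linarith [Nat.cast_nonneg (α := ℝ) m]
  have ha : AnalyticAt ℂ Complex.Gamma (x : ℂ) := hd.analyticAt (ho.mem_nhds (by simpa using hx))
  have h2 := (ha.contDiffAt (n := ⊤)).real_of_complex
  exact h2.analyticAt

lemma psi_an {x : ℝ} (hx : 0 < x) : AnalyticAt ℝ psi x :=
  (gam_an hx).deriv.div (gam_an hx) (Real.Gamma_pos_of_pos hx).ne'

lemma psi_succ {x : ℝ} (hx : 0 < x) : psi (x + 1) = psi x + 1 / x := by
  have h1 : HasDerivAt Real.Gamma (deriv Real.Gamma x) x := (gam_an hx).differentiableAt.hasDerivAt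
  have h2 : HasDerivAt (fun y => Real.Gamma (y + 1)) (deriv Real.Gamma (x + 1)) x :=
    ((gam_an (by linarith : 0 < x + 1)).differentiableAt.hasDerivAt).comp_add_const x 1
  have h3 : HasDerivAt (fun y => y * Real.Gamma y) (1 * Real.Gamma x + x * deriv Real.Gamma x) x :=
    (hasDerivAt_id x).mul h1
  have he : (fun y => Real.Gamma (y + 1)) =ᶠ[𝓝 x] fun y => y * Real.Gamma y := by
    filter_upwards [lt_mem_nhds hx] with y hy using Real.Gamma_add_one hy.ne'
  have h4 := (h3.congr_of_eventuallyEq he).unique h2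
  have hg := (Real.Gamma_pos_of_pos hx).ne'
  unfold psi
  rw [← h4, Real.Gamma_add_one hx.ne']
  field_simp
  ring

noncomputable def ph (c : ℝ) : ℕ → ℝ → ℝ
  | 0 => fun y => Real.log (y ^ 2 + c)
  | 1 => fun y => 2 * y / (y ^ 2 + c)
  | 2 => fun y => 2 * (c - y ^ 2) / (y ^ 2 + c) ^ 2
  | 3 => fun y => 4 * y * (y ^ 2 - 3 * c) / (y ^ 2 + c) ^ 3
  | _ => fun y => -12 * (y ^ 4 - 6 * c * y ^ 2 + c ^ 2) / (y ^ 2 + c) ^ 4

lemma ph_d {c : ℝ} (hc : 0 < c) (k : ℕ) (hk : k < 4) (y : ℝ) :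
    HasDerivAt (ph c k) (ph c (k + 1) y) y := by
  have hp : y ^ 2 + c ≠ 0 := by positivity
  have h0 : HasDerivAt (fun y : ℝ => y ^ 2 + c) (2 * y) y :=
    ((hasDerivAt_pow 2 y).add_const c).congr_deriv (by norm_num)
  have hs : HasDerivAt (fun y : ℝ => y ^ 2) (2 * y) y :=
    (hasDerivAt_pow 2 y).congr_deriv (by norm_num)
  interval_cases k
  · exact (h0.log hp).congr_deriv (by simp [ph])
  · refine (((hasDerivAt_id y).const_mul 2).div h0 hp).congr_deriv ?_
    simp only [ph, id]; field_simp; ring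
  · refine (((hs.const_sub c).const_mul 2).div (h0.pow 2) (pow_ne_zero _ hp)).congr_deriv ?_
    simp only [ph, Pi.pow_apply]; field_simp; ring
  · refine ((((hasDerivAt_id y).const_mul 4).mul (hs.sub_const (3 * c))).div (h0.pow 3)
      (pow_ne_zero _ hp)).congr_deriv ?_
    simp only [ph, id, Pi.pow_apply, Pi.mul_apply]; field_simp; ring

noncomputable def rr : ℕ → ℝ → ℝ
  | 0 => fun x => 1 / (x + 1)
  | 1 => fun x => -1 / (x + 1) ^ 2
  | 2 => fun x => 2 / (x + 1) ^ 3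
  | 3 => fun x => -6 / (x + 1) ^ 4
  | _ => fun x => 24 / (x + 1) ^ 5

lemma rr_d (k : ℕ) (hk : k < 4) {x : ℝ} (hx : -1 < x) : HasDerivAt (rr k) (rr (k + 1) x) x := by
  have hp : x + 1 ≠ 0 := by linarith
  have h0 : HasDerivAt (fun y : ℝ => y + 1) 1 x := (hasDerivAt_id x).add_const 1
  interval_cases k
  · refine ((hasDerivAt_const x (1 : ℝ)).div h0 hp).congr_deriv ?_
    simp only [rr]; field_simp; ring
  · refine ((hasDerivAt_const x (-1 : ℝ)).div (h0.pow 2) (pow_ne_zero _ hp)).congr_deriv ?_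
    simp only [rr, Pi.pow_apply]; field_simp; ring
  · refine ((hasDerivAt_const x (2 : ℝ)).div (h0.pow 3) (pow_ne_zero _ hp)).congr_deriv ?_
    simp only [rr, Pi.pow_apply]; field_simp; ring
  · refine ((hasDerivAt_const x (-6 : ℝ)).div (h0.pow 4) (pow_ne_zero _ hp)).congr_deriv ?_
    simp only [rr, Pi.pow_apply]; field_simp; ring

noncomputable def EE (A B c d : ℝ) (k : ℕ) (x : ℝ) : ℝ :=
  A * ph c k (x + 1 / 2) + B * ph d k (x + 1 / 2) - (A * ph c k (x + 3 / 2) + B * ph d k (x + 3 / 2))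
    + rr k x

lemma EE_d (A B : ℝ) {c d : ℝ} (hc : 0 < c) (hd : 0 < d) (k : ℕ) (hk : k < 4) {x : ℝ}
    (hx : -1 < x) : HasDerivAt (EE A B c d k) (EE A B c d (k + 1) x) x :=
  (((((ph_d hc k hk _).comp_add_const x (1 / 2)).const_mul A).add
    (((ph_d hd k hk _).comp_add_const x (1 / 2)).const_mul B)).sub
    ((((ph_d hc k hk _).comp_add_const x (3 / 2)).const_mul A).add
    (((ph_d hd k hk _).comp_add_const x (3 / 2)).const_mul B))).add (rr_d k hk hx)

lemma EE_it (A B : ℝ) {c d : ℝ} (hc : 0 < c) (hd : 0 < d) (k : ℕ) (hk : k ≤ 4) {x : ℝ}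
    (hx : -1 < x) : iteratedDeriv k (EE A B c d 0) x = EE A B c d k x := by
  induction k generalizing x with
  | zero => rfl
  | succ k ih =>
    rw [iteratedDeriv_succ]
    have he : iteratedDeriv k (EE A B c d 0) =ᶠ[𝓝 x] EE A B c d k := by
      filter_upwards [lt_mem_nhds hx] with y hy using ih (by omega) hy
    rw [he.deriv_eq, (EE_d A B hc hd k (by omega) hx).deriv]

lemma a1_bd : 0.79 < a1 ∧ a1 < 0.7901 := by
  have h1 : (14.317 : ℝ) < √205 := Real.lt_sqrt_of_sq_lt (by norm_num)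
  have h2 : √205 < (14.32 : ℝ) := (Real.sqrt_lt' (by norm_num)).mpr (by norm_num)
  unfold a1
  constructor <;> linarith

lemma d_bd : 0 < (15 * a1 - 1) / (45 * a1) - 1 / 4 ∧ (15 * a1 - 1) / (45 * a1) - 1 / 4 < 0.056 := by
  obtain ⟨h1, h2⟩ := a1_bd
  have hp : 0 < 45 * a1 := by linarith
  constructor
  · rw [sub_pos, lt_div_iff₀ hp]; linarith
  · rw [sub_lt_iff_lt_add, div_lt_iff₀ hp]; linarith

lemma L_eq (x : ℝ) : L x a1 = 1 / (90 * a1 ^ 2 + 2) * ph ((3 * a1 + 1) / 3 - 1 / 4) 0 (x + 1 / 2)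
    + 45 * a1 ^ 2 / (90 * a1 ^ 2 + 2) * ph ((15 * a1 - 1) / (45 * a1) - 1 / 4) 0 (x + 1 / 2) := by
  simp only [L, ph]
  congr 3 <;> ring

lemma G_an {x : ℝ} (hx : -1 < x) : AnalyticAt ℝ G x := by
  have hc : 0 < (3 * a1 + 1) / 3 - 1 / 4 := by linarith [a1_bd.1]
  have hd := d_bd.1
  have h1 : ∀ c : ℝ, 0 < c → AnalyticAt ℝ (fun x : ℝ => ph c 0 (x + 1 / 2)) x := by
    intro c hc
    simp only [ph]
    exact AnalyticAt.log (by fun_prop) (by positivity)
  have h2 : AnalyticAt ℝ (fun x : ℝ => psi (x + 1)) x :=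
    AnalyticAt.comp (g := psi) (f := fun x : ℝ => x + 1) (psi_an (by linarith)) (by fun_prop)
  have : G = fun x => (1 / (90 * a1 ^ 2 + 2) * ph ((3 * a1 + 1) / 3 - 1 / 4) 0 (x + 1 / 2)
    + 45 * a1 ^ 2 / (90 * a1 ^ 2 + 2) * ph ((15 * a1 - 1) / (45 * a1) - 1 / 4) 0 (x + 1 / 2))
      - psi (x + 1) := by
    funext y; rw [G, L_eq]
  rw [this]
  exact ((analyticAt_const.mul (h1 _ hc)).add (analyticAt_const.mul (h1 _ hd))).sub h2

lemma it_an (k : ℕ) {x : ℝ} (hx : -1 < x) : AnalyticAt ℝ (iteratedDeriv k G) x := by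
  induction k with
  | zero => exact G_an hx
  | succ k ih => rw [iteratedDeriv_succ]; exact ih.deriv

lemma neg_val {A B c d : ℝ} (hA : 0 ≤ A) (hB : 0.48 ≤ B) (hAB : A + B = 1 / 2) (hc : 0 < c)
    (hd : 0 < d) (hd' : d < 0.056) : EE A B c d 4 (-1 / 2) < 0 := by
  have h1 : ∀ e : ℝ, 0 < e → ph e 4 (-1 / 2 + 1 / 2) = -12 / e ^ 2 := by
    intro e he
    simp only [ph]; norm_num; field_simp
  have h2 : ∀ e : ℝ, 0 < e → -12 ≤ ph e 4 (-1 / 2 + 3 / 2) := by
    intro e he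
    simp only [ph]
    rw [le_div_iff₀ (by positivity)]
    norm_num
    nlinarith [pow_pos he 2, pow_pos he 3, pow_pos he 4]
  have h3 : rr 4 (-1 / 2) = 768 := by simp only [rr]; norm_num
  have h4 : -12 / c ^ 2 ≤ 0 := div_nonpos_of_nonpos_of_nonneg (by norm_num) (by positivity)
  have h5 : -12 / d ^ 2 ≤ -3800 := by
    rw [div_le_iff₀ (by positivity)]; nlinarith
  unfold EE
  rw [h1 c hc, h1 d hd, h3]
  nlinarith [h2 c hc, h2 d hd, mul_nonneg hA (neg_nonneg.mpr h4),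
    mul_nonneg hA (sub_nonneg.mpr (h2 c hc)),
    mul_nonneg (by linarith : 0 ≤ B) (sub_nonneg.mpr (h2 d hd)),
    mul_nonneg (by linarith : 0 ≤ B) (sub_nonneg.mpr h5)]

theorem result : ∃ (n : ℕ) (x : ℝ), -1 < x ∧ ContDiffAt ℝ ⊤ G x ∧
    (-1) ^ n * iteratedDeriv n G x < 0 := by
  by_contra hcon
  push Not at hcon
  have H : ∀ n x, -1 < x → 0 ≤ (-1) ^ n * iteratedDeriv n G x :=
    fun n x hx => hcon n x hx (G_an hx).contDiffAt
  have hanti : AntitoneOn (iteratedDeriv 4 G) (Ioi (-1)) := by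
    apply antitoneOn_of_deriv_nonpos (convex_Ioi _)
    · exact fun x hx => (it_an 4 hx).continuousAt.continuousWithinAt
    · rw [interior_Ioi]
      exact fun x hx => (it_an 4 hx).differentiableAt.differentiableWithinAt
    · rw [interior_Ioi]
      intro x hx
      have := H 5 x hx
      rw [iteratedDeriv_succ] at this
      linarith
  have h1 : iteratedDeriv 4 G (-1 / 2 + 1) ≤ iteratedDeriv 4 G (-1 / 2) :=
    hanti (by norm_num) (by norm_num) (by norm_num)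
  obtain ⟨ha, ha'⟩ := a1_bd
  have hc : 0 < (3 * a1 + 1) / 3 - 1 / 4 := by linarith
  set A := 1 / (90 * a1 ^ 2 + 2) with hA
  set B := 45 * a1 ^ 2 / (90 * a1 ^ 2 + 2) with hB
  have he : (fun x => G x - G (x + 1)) =ᶠ[𝓝 (-1 / 2)]
      EE A B ((3 * a1 + 1) / 3 - 1 / 4) ((15 * a1 - 1) / (45 * a1) - 1 / 4) 0 := by
    filter_upwards [lt_mem_nhds (by norm_num : (-1 : ℝ) < -1 / 2)] with y hy
    have e : y + 1 + 1 / 2 = y + 3 / 2 := by ring
    simp only [G, L_eq, EE, rr, e]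
    rw [psi_succ (by linarith : 0 < y + 1)]
    ring
  have h2 := he.iteratedDeriv_eq 4
  rw [EE_it A B hc d_bd.1 4 le_rfl (by norm_num)] at h2
  have hs : AnalyticAt ℝ (fun x => G (x + 1)) (-1 / 2) :=
    AnalyticAt.comp (g := G) (f := fun x : ℝ => x + 1) (G_an (by norm_num)) (by fun_prop)
  have h3 : iteratedDeriv 4 (fun x => G x - G (x + 1)) (-1 / 2) =
      iteratedDeriv 4 G (-1 / 2) - iteratedDeriv 4 G (-1 / 2 + 1) := by
    rw [iteratedDeriv_fun_sub (G_an (by norm_num)).contDiffAt hs.contDiffAt,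
      iteratedDeriv_comp_add_const]
  have hp : 0 < 90 * a1 ^ 2 + 2 := by positivity
  have h4 := neg_val (A := A) (B := B) (by positivity)
    (by rw [hB, le_div_iff₀ hp]; nlinarith) (by rw [hA, hB]; field_simp; ring) hc d_bd.1 d_bd.2
  linarith

end Pool.Agent.Results.MP_d2a7e5_an.Counter
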